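import Mathlib

set_option autoImplicit false
open Finset

namespace Pool.Agent.Lib.MP_7e9a3a_nt

/-- the `i`-th binary digit after the point of `z` (for `i ≥ 1`) is one -/
def One (z : ℝ) (i : ℕ) : Prop := 1 ≤ i ∧ ⌊(2:ℝ) ^ i * z⌋ % 2 = 1

noncomputable instance (z : ℝ) : DecidablePred (One z) := Classical.decPred _

/-- positions of ones up to `N` -/
noncomputable def S (z : ℝ) (N : ℕ) : Finset ℕ := (range (N + 1)).filter (One z)

lemma mem_S {z : ℝ} {N i : ℕ} : i ∈ S z N ↔ i ≤ N ∧ One z i := by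
  simp [S]

lemma floor_two_mul (y : ℝ) : ⌊2 * y⌋ = 2 * ⌊y⌋ + ⌊2 * y⌋ % 2 := by
  have h1 := Int.floor_le y
  have h2 := Int.lt_floor_add_one y
  have h3 : 2 * ⌊y⌋ ≤ ⌊2 * y⌋ := by
    apply Int.le_floor.mpr; push_cast; linarith
  have h4 : ⌊2 * y⌋ < 2 * ⌊y⌋ + 2 := by
    apply Int.floor_lt.mpr; push_cast; linarith
  omega

lemma S_succ (z : ℝ) (N : ℕ) :
    S z (N + 1) = if One z (N + 1) then insert (N + 1) (S z N) else S z N := by
  unfold S
  rw [range_add_one, filter_insert]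

lemma floor_eq_sum {z : ℝ} (hz : 0 ≤ z) (hz1 : z < 1) (N : ℕ) :
    (⌊(2:ℝ) ^ N * z⌋ : ℝ) = 2 ^ N * ∑ i ∈ S z N, ((1:ℝ) / 2) ^ i := by
  induction N with
  | zero =>
    have h0 : ⌊z⌋ = 0 := Int.floor_eq_zero_iff.mpr ⟨hz, hz1⟩
    have hS : S z 0 = ∅ := by
      ext i; simp [mem_S, One]; intro h; omega
    simp [h0, hS]
  | succ N ih =>
    have h1 : (2:ℝ) ^ (N + 1) * z = 2 * (2 ^ N * z) := by ring
    have h2 := floor_two_mul (2 ^ N * z)
    have hmod : ⌊(2:ℝ) ^ (N + 1) * z⌋ % 2 = 0 ∨ ⌊(2:ℝ) ^ (N + 1) * z⌋ % 2 = 1 := by omega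
    rw [S_succ]
    rw [← h1] at h2
    have hpow : (2:ℝ) ^ (N + 1) * (1 / 2) ^ (N + 1) = 1 := by
      rw [← mul_pow]; norm_num
    by_cases h : One z (N + 1)
    · have hm : ⌊(2:ℝ) ^ (N + 1) * z⌋ % 2 = 1 := h.2
      rw [if_pos h, sum_insert (by simp [mem_S]), h2, hm]
      push_cast
      rw [ih, mul_add, hpow]; ring
    · have hm : ⌊(2:ℝ) ^ (N + 1) * z⌋ % 2 = 0 := by
        rcases hmod with h' | h'
        · exact h'
        · exact absurd ⟨by omega, h'⟩ h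
      rw [if_neg h, h2, hm]
      push_cast
      rw [ih]; ring

/-- truncation -/
noncomputable def tr (z : ℝ) (N : ℕ) : ℝ := ∑ i ∈ S z N, ((1:ℝ) / 2) ^ i

lemma tr_nonneg (z : ℝ) (N : ℕ) : 0 ≤ tr z N := sum_nonneg fun i _ => by positivity

lemma tr_le {z : ℝ} (hz : 0 ≤ z) (hz1 : z < 1) (N : ℕ) : tr z N ≤ z := by
  have h := floor_eq_sum hz hz1 N
  have h1 := Int.floor_le ((2:ℝ) ^ N * z)
  have hp : (0:ℝ) < 2 ^ N := by positivity
  unfold tr
  rw [h] at h1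
  exact le_of_mul_le_mul_left h1 hp

lemma lt_tr_add {z : ℝ} (hz : 0 ≤ z) (hz1 : z < 1) (N : ℕ) : z < tr z N + (1/2) ^ N := by
  have h := floor_eq_sum hz hz1 N
  have h1 := Int.lt_floor_add_one ((2:ℝ) ^ N * z)
  have hp : (0:ℝ) < 2 ^ N := by positivity
  unfold tr
  rw [h] at h1
  have h2 : (2:ℝ) ^ N * (∑ i ∈ S z N, ((1:ℝ) / 2) ^ i + (1/2) ^ N) =
      2 ^ N * ∑ i ∈ S z N, ((1:ℝ) / 2) ^ i + 1 := by
    rw [mul_add, ← mul_pow]; norm_num
  rw [← h2] at h1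
  exact lt_of_mul_lt_mul_left h1 hp.le

lemma tr_lt {z : ℝ} (hz : 0 ≤ z) (hz1 : z < 1) (hirr : Irrational z) (N : ℕ) : tr z N < z := by
  refine lt_of_le_of_ne (tr_le hz hz1 N) ?_
  intro h
  apply hirr
  refine ⟨∑ i ∈ S z N, ((1:ℚ) / 2) ^ i, ?_⟩
  refine Eq.trans ?_ h
  unfold tr; push_cast; rfl

/-- number of representations -/
noncomputable def r (z : ℝ) (n : ℕ) : ℕ :=
  ((HasAntidiagonal.antidiagonal n).filter (fun p => One z p.1 ∧ One z p.2)).card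

/-- fibre lemma -/
lemma sum_pairs {R : Type*} [CommSemiring R] (z : ℝ) (M : ℕ) (φ : ℕ → R) :
    ∑ p ∈ (S z M ×ˢ S z M).filter (fun p => p.1 + p.2 ≤ M), φ (p.1 + p.2) =
      ∑ n ∈ range (M + 1), (r z n : R) * φ n := by
  rw [← sum_fiberwise_of_maps_to (s := (S z M ×ˢ S z M).filter (fun p => p.1 + p.2 ≤ M))
    (t := range (M + 1)) (g := fun p => p.1 + p.2)]
  · apply sum_congr rfl
    intro n hn
    have hset : filter (fun p => p.1 + p.2 = n)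
        ((S z M ×ˢ S z M).filter (fun p => p.1 + p.2 ≤ M)) =
        (HasAntidiagonal.antidiagonal n).filter (fun p => One z p.1 ∧ One z p.2) := by
      ext p
      simp only [mem_filter, mem_product, mem_S, HasAntidiagonal.mem_antidiagonal, mem_range] at *
      constructor
      · rintro ⟨⟨⟨⟨_, h1⟩, ⟨_, h2⟩⟩, _⟩, h3⟩
        exact ⟨h3, h1, h2⟩
      · rintro ⟨h3, h1, h2⟩
        refine ⟨⟨⟨⟨by omega, h1⟩, ⟨by omega, h2⟩⟩, by omega⟩, h3⟩
    rw [hset]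
    have : ∀ p ∈ (HasAntidiagonal.antidiagonal n).filter (fun p => One z p.1 ∧ One z p.2),
        φ (p.1 + p.2) = φ n := by
      intro p hp
      simp only [mem_filter, HasAntidiagonal.mem_antidiagonal] at hp
      rw [hp.1]
    rw [sum_congr rfl this, sum_const, nsmul_eq_mul]
    rfl
  · intro p hp
    simp only [mem_filter, mem_range] at *
    omega

/-- parity of the representation count -/
lemma r_even {z : ℝ} {n : ℕ} (h : ¬ (Even n ∧ One z (n / 2))) : Even (r z n) := by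
  unfold r
  rw [← ZMod.natCast_eq_zero_iff_even, card_eq_sum_ones]
  push_cast
  apply sum_involution (fun p _ => p.swap)
  · intro p _; exact CharTwo.add_self_eq_zero _
  · intro p hp _ hswap
    apply h
    simp only [mem_filter, HasAntidiagonal.mem_antidiagonal] at hp
    have h1 : p.2 = p.1 := congrArg Prod.fst hswap
    have h2 : n = p.1 + p.1 := by rw [← hp.1, h1]
    refine ⟨⟨p.1, h2⟩, ?_⟩
    have : n / 2 = p.1 := by omega
    rw [this]; exact hp.2.1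
  · intro p _; exact Prod.swap_swap p
  · intro p hp
    simp only [mem_filter, HasAntidiagonal.mem_antidiagonal, Prod.fst_swap, Prod.snd_swap] at *
    exact ⟨by omega, hp.2.2, hp.2.1⟩

/-- partial sums of the square -/
noncomputable def Q (z : ℝ) (N : ℕ) : ℝ := ∑ n ∈ range (N + 1), (r z n : ℝ) * (1/2) ^ n

/-- scaled tails -/
noncomputable def T (z : ℝ) (N : ℕ) : ℝ := 2 ^ N * (z ^ 2 - Q z N)

lemma T_succ (z : ℝ) (N : ℕ) : T z (N + 1) = 2 * T z N - r z (N + 1) := by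
  unfold T Q
  rw [sum_range_succ _ (N + 1)]
  have hpow : (2:ℝ) ^ (N + 1) * (1 / 2) ^ (N + 1) = 1 := by
    rw [← mul_pow]; norm_num
  have : (2:ℝ) ^ (N + 1) * (z ^ 2 - (∑ n ∈ range (N + 1), (r z n : ℝ) * (1/2) ^ n +
      (r z (N+1) : ℝ) * (1/2) ^ (N+1))) = 2 * (2 ^ N * (z ^ 2 -
      ∑ n ∈ range (N + 1), (r z n : ℝ) * (1/2) ^ n)) -
      (r z (N+1) : ℝ) * ((2:ℝ) ^ (N + 1) * (1 / 2) ^ (N + 1)) := by ring
  rw [this, hpow, mul_one]

lemma T_int {z : ℝ} {K : ℕ} (hK : ∃ m : ℤ, (2:ℝ) ^ K * z ^ 2 = m) {N : ℕ} (hN : K ≤ N) :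
    ∃ m : ℤ, T z N = m := by
  induction N, hN using Nat.le_induction with
  | base =>
    obtain ⟨m, hm⟩ := hK
    refine ⟨m - ∑ n ∈ range (K + 1), (r z n : ℤ) * 2 ^ (K - n), ?_⟩
    unfold T Q
    rw [mul_sub, hm]
    push_cast
    congr 1
    rw [mul_sum]
    apply sum_congr rfl
    intro n hn
    have hn' : n ≤ K := by simp only [mem_range] at hn; omega
    have : (2:ℝ) ^ K = 2 ^ (K - n) * 2 ^ n := by rw [← pow_add]; congr 1; omega
    rw [this]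
    have h2 : (2:ℝ) ^ n * (1/2) ^ n = 1 := by rw [← mul_pow]; norm_num
    calc (2:ℝ) ^ (K - n) * 2 ^ n * ((r z n : ℝ) * (1/2) ^ n)
        = (r z n : ℝ) * 2 ^ (K - n) * ((2:ℝ) ^ n * (1/2) ^ n) := by ring
      _ = (r z n : ℝ) * 2 ^ (K - n) := by rw [h2, mul_one]
  | succ N hN ih =>
    obtain ⟨m, hm⟩ := ih
    refine ⟨2 * m - r z (N + 1), ?_⟩
    rw [T_succ, hm]; push_cast; ring

lemma tr_sq (z : ℝ) (N : ℕ) : tr z N ^ 2 = Q z N +
    ∑ p ∈ (S z N ×ˢ S z N).filter (fun p => ¬ p.1 + p.2 ≤ N), ((1:ℝ)/2) ^ (p.1 + p.2) := by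
  have h1 : tr z N ^ 2 = ∑ p ∈ S z N ×ˢ S z N, ((1:ℝ)/2) ^ (p.1 + p.2) := by
    unfold tr
    rw [sq, sum_mul_sum, sum_product]
    apply sum_congr rfl; intro i _
    apply sum_congr rfl; intro j _
    rw [pow_add]
  rw [h1, ← sum_filter_add_sum_filter_not _ (fun p => p.1 + p.2 ≤ N)]
  congr 1
  rw [sum_pairs z N (fun n => ((1:ℝ)/2) ^ n)]
  rfl

lemma T_pos {z : ℝ} (hz : 0 ≤ z) (hz1 : z < 1) (hirr : Irrational z) (N : ℕ) : 0 < T z N := by
  unfold T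
  apply mul_pos (by positivity)
  have h1 := tr_sq z N
  have h2 : 0 ≤ ∑ p ∈ (S z N ×ˢ S z N).filter (fun p => ¬ p.1 + p.2 ≤ N), ((1:ℝ)/2) ^ (p.1 + p.2) :=
    sum_nonneg fun p _ => by positivity
  have h3 := tr_lt hz hz1 hirr N
  have h4 := tr_nonneg z N
  nlinarith

lemma S_mono (z : ℝ) {m N : ℕ} (h : m ≤ N) : (S z N).filter (fun j => j ≤ m) = S z m := by
  ext j
  simp only [mem_filter, mem_S]
  constructor
  · rintro ⟨⟨_, h2⟩, h3⟩; exact ⟨h3, h2⟩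
  · rintro ⟨h1, h2⟩; exact ⟨⟨by omega, h2⟩, h1⟩

lemma tail_sum {z : ℝ} (hz : 0 ≤ z) (hz1 : z < 1) {m N : ℕ} (h : m ≤ N) :
    ∑ j ∈ (S z N).filter (fun j => ¬ j ≤ m), ((1:ℝ)/2) ^ j ≤ (1/2) ^ m := by
  have h1 : tr z N = tr z m + ∑ j ∈ (S z N).filter (fun j => ¬ j ≤ m), ((1:ℝ)/2) ^ j := by
    unfold tr
    rw [← sum_filter_add_sum_filter_not (S z N) (fun j => j ≤ m), S_mono z h]
  have h2 := tr_le hz hz1 N
  have h3 := lt_tr_add hz hz1 m
  linarith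

lemma T_le {z : ℝ} (hz : 0 ≤ z) (hz1 : z < 1) (N : ℕ) : T z N ≤ (S z N).card + 3 := by
  have h1 := tr_sq z N
  have h2 : ∑ p ∈ (S z N ×ˢ S z N).filter (fun p => ¬ p.1 + p.2 ≤ N), ((1:ℝ)/2) ^ (p.1 + p.2)
      ≤ (S z N).card * (1/2) ^ N := by
    rw [sum_filter, sum_product]
    have : ∀ i ∈ S z N, ∑ j ∈ S z N, (if ¬ i + j ≤ N then ((1:ℝ)/2) ^ (i + j) else 0) ≤ (1/2) ^ N := by
      intro i hi
      have hiN : i ≤ N := (mem_S.mp hi).1
      have h3 := tail_sum hz hz1 (m := N - i) (N := N) (by omega)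
      have h4 : ∑ j ∈ S z N, (if ¬ i + j ≤ N then ((1:ℝ)/2) ^ (i + j) else 0) =
          (1/2) ^ i * ∑ j ∈ (S z N).filter (fun j => ¬ j ≤ N - i), ((1:ℝ)/2) ^ j := by
        rw [← sum_filter, mul_sum]
        have h5 : (S z N).filter (fun j => ¬ i + j ≤ N) = (S z N).filter (fun j => ¬ j ≤ N - i) := by
          apply filter_congr; intro j _; constructor <;> intro h <;> omega
        rw [h5]
        apply sum_congr rfl; intro j _; rw [pow_add]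
      rw [h4]
      calc (1/2:ℝ) ^ i * ∑ j ∈ (S z N).filter (fun j => ¬ j ≤ N - i), ((1:ℝ)/2) ^ j
          ≤ (1/2) ^ i * (1/2) ^ (N - i) := mul_le_mul_of_nonneg_left h3 (by positivity)
        _ = (1/2) ^ N := by rw [← pow_add]; congr 1; omega
    refine (sum_le_sum this).trans ?_
    rw [sum_const, nsmul_eq_mul]
  have h3 := lt_tr_add hz hz1 N
  have h4 := tr_nonneg z N
  have h5 := tr_le hz hz1 N
  have hp : (2:ℝ) ^ N * (1/2) ^ N = 1 := by rw [← mul_pow]; norm_num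
  have hq : (0:ℝ) < (1/2) ^ N := by positivity
  have hq1 : ((1:ℝ)/2) ^ N ≤ 1 := pow_le_one₀ (by norm_num) (by norm_num)
  have h6 : z ^ 2 ≤ tr z N ^ 2 + 3 * (1/2) ^ N := by nlinarith
  have h7 : z ^ 2 - Q z N ≤ ((S z N).card + 3) * (1/2) ^ N := by linarith
  unfold T
  calc (2:ℝ) ^ N * (z ^ 2 - Q z N) ≤ 2 ^ N * (((S z N).card + 3) * (1/2) ^ N) :=
        mul_le_mul_of_nonneg_left h7 (by positivity)
    _ = ((S z N).card + 3) * ((2:ℝ) ^ N * (1/2) ^ N) := by ring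
    _ = (S z N).card + 3 := by rw [hp, mul_one]

lemma T_ge_one {z : ℝ} (hz : 0 ≤ z) (hz1 : z < 1) (hirr : Irrational z) {K : ℕ}
    (hK : ∃ m : ℤ, (2:ℝ) ^ K * z ^ 2 = m) {N : ℕ} (hN : K ≤ N) : 1 ≤ T z N := by
  obtain ⟨m, hm⟩ := T_int hK hN
  have h := T_pos hz hz1 hirr N
  rw [hm] at h ⊢
  have : 0 < m := by exact_mod_cast h
  exact_mod_cast this

lemma T_ge_two {z : ℝ} (hz : 0 ≤ z) (hz1 : z < 1) (hirr : Irrational z) {K : ℕ}
    (hK : ∃ m : ℤ, (2:ℝ) ^ K * z ^ 2 = m) {N : ℕ} (hN : K + 1 ≤ N)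
    (h : ¬ (Even N ∧ One z (N / 2))) : 2 ≤ T z N := by
  obtain ⟨n, rfl⟩ : ∃ n, N = n + 1 := ⟨N - 1, by omega⟩
  obtain ⟨m, hm⟩ := T_int hK (N := n) (by omega)
  obtain ⟨c, hc⟩ := r_even h
  have hpos := T_pos hz hz1 hirr (n + 1)
  rw [T_succ, hm, hc] at hpos ⊢
  have h1 : (0:ℤ) < 2 * m - ((c + c : ℕ) : ℤ) := by exact_mod_cast hpos
  have h2 : (2:ℤ) ≤ 2 * m - ((c + c : ℕ) : ℤ) := by push_cast at *; omega
  exact_mod_cast h2

lemma sum_identity (z : ℝ) (w : ℂ) (K : ℕ) {M : ℕ} (hM : K + 1 ≤ M) :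
    ∑ n ∈ Ico (K + 1) (M + 1), (r z n : ℂ) * w ^ n =
      (2 * w - 1) * ∑ n ∈ Ico (K + 1) M, (T z n : ℂ) * w ^ n + 2 * T z K * w ^ (K + 1)
        - T z M * w ^ M := by
  induction M, hM using Nat.le_induction with
  | base =>
    have h := T_succ z K
    simp only [Nat.Ico_succ_singleton, sum_singleton, Ico_self, sum_empty, mul_zero, zero_add]
    have h' : (r z (K+1) : ℝ) = 2 * T z K - T z (K + 1) := by linarith
    have h'' : (r z (K+1) : ℂ) = 2 * (T z K : ℂ) - (T z (K + 1) : ℂ) := by exact_mod_cast h'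
    rw [h'']; ring
  | succ M hM ih =>
    rw [sum_Ico_succ_top (by omega), ih, sum_Ico_succ_top (by omega : K + 1 ≤ M)]
    have h := T_succ z M
    have h' : (r z (M+1) : ℝ) = 2 * T z M - T z (M + 1) := by linarith
    have h'' : (r z (M+1) : ℂ) = 2 * (T z M : ℂ) - (T z (M + 1) : ℂ) := by exact_mod_cast h'
    rw [h'']; ring

lemma sum_identity_one (z : ℝ) (K : ℕ) {M : ℕ} (hM : K + 1 ≤ M) :
    ∑ n ∈ Ico (K + 1) (M + 1), (r z n : ℝ) =
      ∑ n ∈ Ico (K + 1) M, T z n + 2 * T z K - T z M := by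
  have h := sum_identity z 1 K hM
  simp only [one_pow, mul_one] at h
  have h2 : (2 - 1 : ℂ) = 1 := by norm_num
  rw [h2, one_mul] at h
  exact_mod_cast h

/-- sum of deviations -/
lemma dev_sum {z : ℝ} (hz : 0 ≤ z) (hz1 : z < 1) (hirr : Irrational z) {K : ℕ}
    (hK : ∃ m : ℤ, (2:ℝ) ^ K * z ^ 2 = m) {M : ℕ} (hM : K + 1 ≤ M) :
    ∑ n ∈ Ico (K + 1) M, |T z n - 2| ≤
      ∑ n ∈ Ico (K + 1) M, T z n - 2 * (M - K - 1) + 2 * (S z M).card := by
  have h1 : ∀ n ∈ Ico (K + 1) M, |T z n - 2| ≤ T z n - 2 +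
      2 * (if Even n ∧ One z (n / 2) then 1 else 0) := by
    intro n hn
    have hn1 : K + 1 ≤ n := (mem_Ico.mp hn).1
    by_cases h : Even n ∧ One z (n / 2)
    · rw [if_pos h]
      have := T_ge_one hz hz1 hirr hK (N := n) (by omega)
      rw [abs_le]; constructor <;> linarith
    · rw [if_neg h]
      have := T_ge_two hz hz1 hirr hK hn1 h
      rw [abs_of_nonneg (by linarith)]; linarith
  have h2 : ∑ n ∈ Ico (K + 1) M, (if Even n ∧ One z (n / 2) then (1:ℝ) else 0) ≤ (S z M).card := by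
    rw [← sum_filter, sum_const, nsmul_eq_mul, mul_one]
    have : ((Ico (K + 1) M).filter (fun n => Even n ∧ One z (n / 2))).card ≤ (S z M).card := by
      apply card_le_card_of_injOn (fun n => n / 2)
      · intro n hn
        simp only [coe_filter, Set.mem_ofPred_eq, mem_Ico, mem_coe, mem_S] at *
        exact ⟨by omega, hn.2.2⟩
      · intro n hn m hm hnm
        simp only [coe_filter, Set.mem_ofPred_eq, mem_Ico] at *
        obtain ⟨a, ha⟩ := hn.2.1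
        obtain ⟨b, hb⟩ := hm.2.1
        omega
    exact_mod_cast this
  calc ∑ n ∈ Ico (K + 1) M, |T z n - 2|
      ≤ ∑ n ∈ Ico (K + 1) M, (T z n - 2 + 2 * (if Even n ∧ One z (n / 2) then 1 else 0)) :=
        sum_le_sum h1
    _ = ∑ n ∈ Ico (K + 1) M, T z n - 2 * (M - K - 1) +
        2 * ∑ n ∈ Ico (K + 1) M, (if Even n ∧ One z (n / 2) then (1:ℝ) else 0) := by
        rw [sum_add_distrib, sum_sub_distrib, sum_const, Nat.card_Ico, nsmul_eq_mul, mul_sum]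
        rw [Nat.cast_sub hM]; push_cast; ring
    _ ≤ _ := by linarith

/-- lower bound for the sum of tails -/
lemma T_sum_lower {z : ℝ} (hz : 0 ≤ z) (hz1 : z < 1) (hirr : Irrational z) {K : ℕ}
    (hK : ∃ m : ℤ, (2:ℝ) ^ K * z ^ 2 = m) {M : ℕ} (hM : K + 1 ≤ M) :
    2 * ((M:ℝ) - K - 1) - (S z M).card * 2 ≤ ∑ n ∈ Ico (K + 1) M, T z n := by
  have h := dev_sum hz hz1 hirr hK hM
  have h2 : 0 ≤ ∑ n ∈ Ico (K + 1) M, |T z n - 2| := sum_nonneg fun _ _ => abs_nonneg _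
  linarith

/-- exponential sum over the positions of ones -/
noncomputable def f (z : ℝ) (M : ℕ) (w : ℂ) : ℂ := ∑ i ∈ S z M, w ^ i

/-- pairs with large sum -/
noncomputable def Y (z : ℝ) (M : ℕ) : ℕ := ((S z M ×ˢ S z M).filter (fun p => ¬ p.1 + p.2 ≤ M)).card

lemma card_split (z : ℝ) (M : ℕ) :
    (S z M).card ^ 2 = ∑ n ∈ range (M + 1), r z n + Y z M := by
  have h := sum_pairs (R := ℕ) z M (fun _ => 1)
  simp only [sum_const, smul_eq_mul, mul_one, Nat.cast_id] at h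
  rw [← h]
  unfold Y
  rw [card_filter_add_card_filter_not (s := S z M ×ˢ S z M) (fun p => p.1 + p.2 ≤ M), card_product, sq]

lemma f_sq (z : ℝ) (M : ℕ) (w : ℂ) : f z M w ^ 2 = ∑ n ∈ range (M + 1), (r z n : ℂ) * w ^ n +
    ∑ p ∈ (S z M ×ˢ S z M).filter (fun p => ¬ p.1 + p.2 ≤ M), w ^ (p.1 + p.2) := by
  have h1 : f z M w ^ 2 = ∑ p ∈ S z M ×ˢ S z M, w ^ (p.1 + p.2) := by
    unfold f
    rw [sq, sum_mul_sum, sum_product]
    apply sum_congr rfl; intro i _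
    apply sum_congr rfl; intro j _
    rw [pow_add]
  rw [h1, ← sum_filter_add_sum_filter_not _ (fun p => p.1 + p.2 ≤ M)]
  congr 1
  exact sum_pairs z M (fun n => w ^ n)

/-- constant of the error term -/
noncomputable def C0 (z : ℝ) (K : ℕ) : ℝ :=
  ∑ n ∈ range (K + 1), (r z n : ℝ) + 2 * T z K + 6 + 4 * (K + 1) + 51 * (14 + 4 * K)

lemma range_split (z : ℝ) (K : ℕ) {M : ℕ} (hM : K + 1 ≤ M) (w : ℂ) :
    ∑ n ∈ range (M + 1), (r z n : ℂ) * w ^ n = ∑ n ∈ range (K + 1), (r z n : ℂ) * w ^ n +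
      ∑ n ∈ Ico (K + 1) (M + 1), (r z n : ℂ) * w ^ n := by
  rw [range_eq_Ico, range_eq_Ico, sum_Ico_consecutive _ (by omega) (by omega)]

lemma f_bound {z : ℝ} (hz : 0 ≤ z) (hz1 : z < 1) (hirr : Irrational z) {K : ℕ}
    (hK : ∃ m : ℤ, (2:ℝ) ^ K * z ^ 2 = m) {M : ℕ} (hM : K + 1 ≤ M)
    (ha : (S z M).card ≤ M) (ha2 : (S z M).card ^ 2 ≤ 4 * M)
    {w : ℂ} (hw : ‖w‖ = 1) (hwM : w ^ M = 1) (hw1 : w ≠ 1) (hwd : ‖w - 1‖ * M ≤ 25.5) :
    ‖f z M w‖ ^ 2 ≤ (S z M).card ^ 2 - 2 * M + 4 * (S z M).card + C0 z K := by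
  have hMpos : (0:ℝ) < M := by
    have : 0 < M := by omega
    exact_mod_cast this
  set a : ℝ := ((S z M).card : ℝ) with hadef
  have haM : a ≤ M := by rw [hadef]; exact_mod_cast ha
  have ha2' : a ^ 2 ≤ 4 * M := by rw [hadef]; exact_mod_cast ha2
  have ha0 : 0 ≤ a := Nat.cast_nonneg _
  have hTK : 0 < T z K := T_pos hz hz1 hirr K
  have hTM : 0 < T z M := T_pos hz hz1 hirr M
  have hTM2 : T z M ≤ a + 3 := T_le hz hz1 M
  -- geometric sum
  have hgeo : ‖∑ n ∈ Ico (K + 1) M, w ^ n‖ ≤ K + 1 := by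
    have h0 : ∑ n ∈ range M, w ^ n = 0 := by
      rw [geom_sum_eq hw1, hwM]; simp
    have h1 : ∑ n ∈ range M, w ^ n = ∑ n ∈ range (K + 1), w ^ n + ∑ n ∈ Ico (K + 1) M, w ^ n := by
      rw [range_eq_Ico, range_eq_Ico, sum_Ico_consecutive _ (by omega) (by omega)]
    have h2 : ∑ n ∈ Ico (K + 1) M, w ^ n = - ∑ n ∈ range (K + 1), w ^ n := by
      rw [h0] at h1; linear_combination -h1
    rw [h2, norm_neg]
    refine (norm_sum_le _ _).trans ?_
    simp [hw]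
  -- sum of T w^n
  have hdev := dev_sum hz hz1 hirr hK hM
  have hTsum : ‖∑ n ∈ Ico (K + 1) M, (T z n : ℂ) * w ^ n‖ ≤
      2 * (K + 1) + ∑ n ∈ Ico (K + 1) M, |T z n - 2| := by
    have h1 : ∑ n ∈ Ico (K + 1) M, (T z n : ℂ) * w ^ n =
        2 * ∑ n ∈ Ico (K + 1) M, w ^ n + ∑ n ∈ Ico (K + 1) M, ((T z n - 2 : ℝ) : ℂ) * w ^ n := by
      rw [mul_sum, ← sum_add_distrib]
      apply sum_congr rfl; intro n _; push_cast; ring
    rw [h1]
    refine (norm_add_le _ _).trans ?_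
    apply add_le_add
    · rw [norm_mul, Complex.norm_ofNat]
      exact mul_le_mul_of_nonneg_left hgeo (by norm_num)
    · refine (norm_sum_le _ _).trans ?_
      apply sum_le_sum
      intro n _
      rw [norm_mul, norm_pow, hw, one_pow, mul_one, Complex.norm_real, Real.norm_eq_abs]
  -- total of r
  set R : ℝ := ∑ n ∈ range (M + 1), (r z n : ℝ) with hR
  set R0 : ℝ := ∑ n ∈ range (K + 1), (r z n : ℝ) with hR0
  have hR0n : 0 ≤ R0 := sum_nonneg fun _ _ => Nat.cast_nonneg _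
  have hsplitR : R = R0 + ∑ n ∈ Ico (K + 1) (M + 1), (r z n : ℝ) := by
    rw [hR, hR0, range_eq_Ico, range_eq_Ico, sum_Ico_consecutive _ (by omega) (by omega)]
  have hone := sum_identity_one z K hM
  have hTs : ∑ n ∈ Ico (K + 1) M, T z n = R - R0 - 2 * T z K + T z M := by linarith
  have hRY : a ^ 2 = R + Y z M := by
    rw [hadef, hR]; exact_mod_cast card_split z M
  have hYn : (0:ℝ) ≤ Y z M := Nat.cast_nonneg _
  set B : ℝ := ∑ n ∈ Ico (K + 1) M, |T z n - 2| with hB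
  have hBn : 0 ≤ B := sum_nonneg fun _ _ => abs_nonneg _
  have hB1 : B ≤ R + (a + 3) - 2 * (M - K - 1) + 2 * a := by linarith
  have hKn : (0:ℝ) ≤ K := Nat.cast_nonneg _
  have hM1 : (1:ℝ) ≤ M := by
    have : 1 ≤ M := by omega
    exact_mod_cast this
  have hB2 : 2 * (K + 1) + B ≤ (14 + 4 * K) * M := by nlinarith
  have h2w : ‖2 * w - 1‖ ≤ 1 + 2 * ‖w - 1‖ := by
    have : 2 * w - 1 = 1 + 2 * (w - 1) := by ring
    rw [this]
    refine (norm_add_le _ _).trans ?_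
    simp
  have hprod : ‖2 * w - 1‖ * (2 * (K + 1) + B) ≤ 2 * (K + 1) + B + 51 * (14 + 4 * K) := by
    have h1 : ‖2 * w - 1‖ * (2 * (K + 1) + B) ≤ (1 + 2 * ‖w - 1‖) * (2 * (K + 1) + B) :=
      mul_le_mul_of_nonneg_right h2w (by positivity)
    have h2 : 2 * ‖w - 1‖ * (2 * (K + 1) + B) ≤ 2 * ‖w - 1‖ * ((14 + 4 * K) * M) :=
      mul_le_mul_of_nonneg_left hB2 (by positivity)
    have h3 : 2 * ‖w - 1‖ * ((14 + 4 * K) * M) = 2 * (14 + 4 * K) * (‖w - 1‖ * M) := by ring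
    have h4 : 2 * (14 + 4 * (K:ℝ)) * (‖w - 1‖ * M) ≤ 2 * (14 + 4 * K) * 25.5 :=
      mul_le_mul_of_nonneg_left hwd (by positivity)
    linarith
  have hr : ‖∑ n ∈ range (M + 1), (r z n : ℂ) * w ^ n‖ ≤
      R0 + (2 * (K + 1) + B + 51 * (14 + 4 * K)) + 2 * T z K + T z M := by
    rw [range_split z K hM, sum_identity z w K hM]
    have e1 : ‖∑ n ∈ range (K + 1), (r z n : ℂ) * w ^ n‖ ≤ R0 := by
      refine (norm_sum_le _ _).trans ?_
      apply sum_le_sum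
      intro n _
      rw [norm_mul, norm_pow, hw, one_pow, mul_one, Complex.norm_natCast]
    have e2 : ‖(2 * w - 1) * ∑ n ∈ Ico (K + 1) M, (T z n : ℂ) * w ^ n‖ ≤
        2 * (K + 1) + B + 51 * (14 + 4 * K) := by
      rw [norm_mul]
      exact (mul_le_mul_of_nonneg_left hTsum (norm_nonneg _)).trans hprod
    have e3 : ‖2 * (T z K : ℂ) * w ^ (K + 1)‖ = 2 * T z K := by
      rw [norm_mul, norm_mul, norm_pow, hw, one_pow, mul_one, Complex.norm_real,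
        Real.norm_of_nonneg hTK.le, Complex.norm_ofNat]
    have e4 : ‖(T z M : ℂ) * w ^ M‖ = T z M := by
      rw [norm_mul, norm_pow, hw, one_pow, mul_one, Complex.norm_real,
        Real.norm_of_nonneg hTM.le]
    calc ‖∑ n ∈ range (K + 1), (r z n : ℂ) * w ^ n +
        ((2 * w - 1) * ∑ n ∈ Ico (K + 1) M, (T z n : ℂ) * w ^ n + 2 * T z K * w ^ (K + 1)
          - T z M * w ^ M)‖
        ≤ ‖∑ n ∈ range (K + 1), (r z n : ℂ) * w ^ n‖ +
          ‖(2 * w - 1) * ∑ n ∈ Ico (K + 1) M, (T z n : ℂ) * w ^ n + 2 * T z K * w ^ (K + 1)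
          - T z M * w ^ M‖ := norm_add_le _ _
      _ ≤ ‖∑ n ∈ range (K + 1), (r z n : ℂ) * w ^ n‖ +
          (‖(2 * w - 1) * ∑ n ∈ Ico (K + 1) M, (T z n : ℂ) * w ^ n + 2 * T z K * w ^ (K + 1)‖
          + ‖(T z M : ℂ) * w ^ M‖) := by gcongr; exact norm_sub_le _ _
      _ ≤ ‖∑ n ∈ range (K + 1), (r z n : ℂ) * w ^ n‖ +
          (‖(2 * w - 1) * ∑ n ∈ Ico (K + 1) M, (T z n : ℂ) * w ^ n‖ +
            ‖2 * (T z K : ℂ) * w ^ (K + 1)‖
          + ‖(T z M : ℂ) * w ^ M‖) := by gcongr; exact norm_add_le _ _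
      _ ≤ _ := by rw [e3, e4]; linarith
  have hfsq : ‖f z M w‖ ^ 2 ≤ ‖∑ n ∈ range (M + 1), (r z n : ℂ) * w ^ n‖ + Y z M := by
    rw [← norm_pow, f_sq]
    refine (norm_add_le _ _).trans ?_
    gcongr
    refine (norm_sum_le _ _).trans ?_
    unfold Y
    simp [hw]
  have hC0 : C0 z K = R0 + 2 * T z K + 6 + 4 * (K + 1) + 51 * (14 + 4 * K) := rfl
  rw [hC0]
  linarith

lemma Y_bound {z : ℝ} (hz : 0 ≤ z) (hz1 : z < 1) (hirr : Irrational z) {K : ℕ}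
    (hK : ∃ m : ℤ, (2:ℝ) ^ K * z ^ 2 = m) {M : ℕ} (hM : K + 1 ≤ M) :
    (Y z M : ℝ) ≤ (S z M).card ^ 2 - 2 * M + 4 * (S z M).card + C0 z K := by
  have hTK : 0 < T z K := T_pos hz hz1 hirr K
  have hTM2 := T_le hz hz1 M
  have h1 := T_sum_lower hz hz1 hirr hK hM
  have hone := sum_identity_one z K hM
  have hRY : ((S z M).card : ℝ) ^ 2 = ∑ n ∈ range (M + 1), (r z n : ℝ) + Y z M := by
    exact_mod_cast card_split z M
  have hsplitR : ∑ n ∈ range (M + 1), (r z n : ℝ) = ∑ n ∈ range (K + 1), (r z n : ℝ) +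
      ∑ n ∈ Ico (K + 1) (M + 1), (r z n : ℝ) := by
    rw [range_eq_Ico, range_eq_Ico, sum_Ico_consecutive _ (by omega) (by omega)]
  have hR0n : 0 ≤ ∑ n ∈ range (K + 1), (r z n : ℝ) := sum_nonneg fun _ _ => Nat.cast_nonneg _
  have hKn : (0:ℝ) ≤ K := Nat.cast_nonneg _
  unfold C0
  linarith [Nat.cast_nonneg (α := ℝ) (S z M).card]

end Pool.Agent.Lib.MP_7e9a3a_nt
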