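import Pool.Agent.Lib.MP_7e9a3a_nt.Cplx.H8Final

/-!
# Problem MP_7e9a3a_nt

Infinitely many levels with at least `3 n / 2 - 20 log n - C` distinct digit blocks of length `n`
in the base `b` expansion of `e`.
-/

namespace Pool.Agent.Lib.MP_7e9a3a_nt.BlockComplexityLimsupE

/-- For every base `b ≥ 2` there is a constant `C` such that for infinitely many `n` the number of
distinct blocks of `n` consecutive digits in the base `b` expansion of `e` (digits after the point)
is at least `3 n / 2 - 20 log n - C`. -/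
theorem limsup_blocks (b : ℕ) [NeZero b] (hb : 2 ≤ b) : ∃ C : ℝ, ∀ N : ℕ, ∃ n : ℕ, N ≤ n ∧
    (3 / 2 : ℝ) * n - 20 * Real.log n - C ≤
      ({w : Fin n → Fin b | ∃ i : ℕ, ∀ k : Fin n,
        w k = Real.digits (Int.fract (Real.exp 1)) b (i + k)}.ncard : ℝ) := by
  obtain ⟨C, hC⟩ := Pool.Agent.Lib.MP_7e9a3a_nt.Cplx.final_limsup b hb
  refine ⟨C, fun N => ?_⟩
  obtain ⟨n, hn, h⟩ := hC N
  refine ⟨n, hn, ?_⟩
  have hset : {w : Fin n → Fin b | ∃ i : ℕ, ∀ k : Fin n,
      w k = Real.digits (Int.fract (Real.exp 1)) b (i + k)}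
      = Set.range (Pool.Agent.Lib.MP_7e9a3a_nt.Cplx.block
        (Pool.Agent.Lib.MP_7e9a3a_nt.Cplx.edig b) n) := by
    ext w
    constructor
    · rintro ⟨i, hi⟩
      exact ⟨i, (funext hi).symm⟩
    · rintro ⟨i, rfl⟩
      exact ⟨i, fun k => rfl⟩
  rw [hset]
  exact h

end Pool.Agent.Lib.MP_7e9a3a_nt.BlockComplexityLimsupE
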