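import Pool.Agent.Lib.DC3.Asymp2

/-!
# Digit changes of `√2` in every base

Write `a_k` for the `k`-th digit of `√2` in base `b`, `F = ∑ f_k X^k` with `f_{k+ℓ} =
b^ℓ (a_{k+ℓ} - a_k)`, `D = 2 (b^ℓ - 1)^2`, and `V` for the set of the `k` with `f_k ≠ 0`.

* For a prime `p` not dividing `b` put `μ(k) = f_k b^{-k}` and `S(n) = ∑_{k ≤ n} μ(k)` in
  `ZMod p`. As `F(1/b)^2 = D`, the partial sums of `μ * μ` are equal to `D` off a sparse set.
* If `D` is not a square modulo `p` then `S` is not almost constant on any `[T, 4 T)`, and the
  points of `V` at which `S` changes (after merging at a given resolution) must have small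
  integer combinations at every scale; by the pigeonhole principle there are at least
  `c log N / log log N` such points in each range `[g, 5 T)`.
* For `p ≤ c log N / log log N` one has `S(n) = - S(n / p)` off a sparse set, so the set of
  these points is nearly invariant under division by `p`. The sets belonging to the different
  primes have a small overlap: a set of `m` points, each of which has neighbours for at least
  `2 s` primes, has at least `2^s` points (unique factorization).
* There are `c log N / (log log N)^2` such primes and `c log N / log log N` ranges.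
-/

open Finset

namespace Pool.Agent.Lib.MP_7e9a3a_nt.DigitChangesEveryBase

/-- For every base `b ≥ 2` and every lag `l ≥ 1` there are at least
`c (log N)^3 / (log log N)^5` indices `1 ≤ k ≤ N` at which the base-`b` digits `a_{k+l}` and
`a_k` of `√2` are different, for all large `N`. -/
theorem result (b l : ℕ) (hb : 2 ≤ b) (hl : 1 ≤ l) :
    ∃ c : ℝ, 0 < c ∧ ∃ N₀ : ℕ, ∀ N : ℕ, N₀ ≤ N →
      c * Real.log N ^ 3 / Real.log (Real.log N) ^ 5 ≤
        (#{k ∈ Icc 1 N | ⌊(b : ℝ) ^ (k + l) * √2⌋₊ % b ≠ ⌊(b : ℝ) ^ k * √2⌋₊ % b} : ℝ) :=
  Pool.Agent.DC3.all_bases3 b l hb hl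

end Pool.Agent.Lib.MP_7e9a3a_nt.DigitChangesEveryBase
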