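import Mathlib
import Pool.Agent.Lib.MP_7e9a3a_nt.Basic

set_option autoImplicit false
open Finset

namespace Pool.Agent.Lib.MP_7e9a3a_nt

lemma poly_pos {s : ℝ} (h0 : 0 ≤ s) (h1 : s ≤ 1) :
    1 ≤ 1.74 * s + 0.71 * (1 - 2 * s ^ 2) + 0.155 * (3 * s - 4 * s ^ 3) +
      0.29 * (8 * s ^ 4 - 8 * s ^ 2 + 1) := by
  have hq : 0 ≤ 2.205 - 3.74 * s - 0.62 * s ^ 2 + 2.32 * s ^ 3 := by
    nlinarith [mul_nonneg (by linarith : (0:ℝ) ≤ s + 1.38776) (sq_nonneg (s - 0.8275))]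
  nlinarith [mul_nonneg h0 hq]

lemma poly_neg {s : ℝ} (h0 : s ≤ 0) (h1 : -1 ≤ s) :
    -2.055 ≤ 1.74 * s + 0.71 * (1 - 2 * s ^ 2) + 0.155 * (3 * s - 4 * s ^ 3) +
      0.29 * (8 * s ^ 4 - 8 * s ^ 2 + 1) := by
  have h2 : 0 ≤ 2.32 * s ^ 2 - 4.95376 * s + 3.48975 := by nlinarith
  nlinarith [mul_nonneg h2 (sq_nonneg (s + 0.934))]

lemma cos_two (t : ℝ) : Real.cos (2 * t) = 1 - 2 * Real.sin t ^ 2 := by
  rw [Real.cos_two_mul]; nlinarith [Real.sin_sq_add_cos_sq t]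

lemma cos_four (t : ℝ) : Real.cos (4 * t) = 8 * Real.sin t ^ 4 - 8 * Real.sin t ^ 2 + 1 := by
  have : 4 * t = 2 * (2 * t) := by ring
  rw [this, Real.cos_two_mul, cos_two]; ring

/-- the test function is at least 1 on the first half and at least -2.055 on the second half -/
lemma test_pos {t : ℝ} (h : 0 ≤ Real.sin t) :
    1 ≤ 1.74 * Real.sin t + 0.71 * Real.cos (2 * t) + 0.155 * Real.sin (3 * t) +
      0.29 * Real.cos (4 * t) := by
  rw [cos_two, cos_four, Real.sin_three_mul]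
  exact poly_pos h (Real.sin_le_one t)

lemma test_neg {t : ℝ} (h : Real.sin t ≤ 0) :
    -2.055 ≤ 1.74 * Real.sin t + 0.71 * Real.cos (2 * t) + 0.155 * Real.sin (3 * t) +
      0.29 * Real.cos (4 * t) := by
  rw [cos_two, cos_four, Real.sin_three_mul]
  exact poly_neg h (Real.neg_one_le_sin t)

/-- the root of unity `exp(2 π i j / M)` -/
noncomputable def ww (M j : ℕ) : ℂ := Complex.exp (Complex.I * ((2 * Real.pi * j / M : ℝ) : ℂ))

lemma ww_norm (M j : ℕ) : ‖ww M j‖ = 1 := by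
  unfold ww; rw [mul_comm]; exact Complex.norm_exp_ofReal_mul_I _

lemma ww_pow (M j i : ℕ) : ww M j ^ i =
    Complex.exp (Complex.I * ((j * (2 * Real.pi * i / M) : ℝ) : ℂ)) := by
  unfold ww
  rw [← Complex.exp_nat_mul]
  congr 1; push_cast; ring

lemma ww_pow_M {M j : ℕ} (hM : 0 < M) : ww M j ^ M = 1 := by
  rw [ww_pow, Complex.exp_eq_one_iff]
  refine ⟨j, ?_⟩
  have : (M:ℂ) ≠ 0 := by exact_mod_cast hM.ne'
  push_cast
  field_simp

lemma ww_ne_one {M j : ℕ} (hj : 0 < j) (hjM : j < M) : ww M j ≠ 1 := by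
  intro h
  have hM : M ≠ 0 := by omega
  have h1 := Complex.isPrimitiveRoot_exp M hM
  have h2 : ww M j = Complex.exp (2 * Real.pi * Complex.I / M) ^ j := by
    unfold ww
    rw [← Complex.exp_nat_mul]
    congr 1; push_cast; ring
  rw [h2] at h
  have h3 := h1.dvd_of_pow_eq_one j h
  exact absurd (Nat.le_of_dvd hj h3) (by omega)

lemma ww_dist {M j : ℕ} (hM : 0 < M) (hj : j ≤ 4) : ‖ww M j - 1‖ * M ≤ 25.5 := by
  unfold ww
  have h1 := Real.norm_exp_I_mul_ofReal_sub_one_le (x := 2 * Real.pi * j / M)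
  have hM' : (0:ℝ) < M := by exact_mod_cast hM
  have hj' : (j:ℝ) ≤ 4 := by exact_mod_cast hj
  have hj0 : (0:ℝ) ≤ j := Nat.cast_nonneg _
  have hpi := Real.pi_lt_d2
  have hpi0 := Real.pi_pos
  have h2 : ‖2 * Real.pi * j / (M:ℝ)‖ = 2 * Real.pi * j / M :=
    Real.norm_of_nonneg (by positivity)
  rw [h2] at h1
  calc _ ≤ 2 * Real.pi * j / M * M := mul_le_mul_of_nonneg_right h1 hM'.le
    _ = 2 * Real.pi * j := by field_simp
    _ ≤ 25.5 := by nlinarith

lemma f_re (z : ℝ) (M j : ℕ) : (f z M (ww M j)).re =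
    ∑ i ∈ S z M, Real.cos (j * (2 * Real.pi * i / M)) := by
  unfold f
  rw [Complex.re_sum]
  apply sum_congr rfl; intro i _
  rw [ww_pow, mul_comm, Complex.exp_ofReal_mul_I_re]

lemma f_im (z : ℝ) (M j : ℕ) : (f z M (ww M j)).im =
    ∑ i ∈ S z M, Real.sin (j * (2 * Real.pi * i / M)) := by
  unfold f
  rw [Complex.im_sum]
  apply sum_congr rfl; intro i _
  rw [ww_pow, mul_comm, Complex.exp_ofReal_mul_I_im]

/-- ones in the second half -/
noncomputable def H (z : ℝ) (M : ℕ) : ℕ := ((S z M).filter (fun i => ¬ 2 * i ≤ M)).card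

lemma H_sq_le (z : ℝ) (M : ℕ) : H z M ^ 2 ≤ Y z M := by
  unfold H Y
  rw [sq, ← card_product]
  apply card_le_card
  intro p hp
  simp only [mem_filter, mem_product] at *
  exact ⟨⟨hp.1.1, hp.2.1⟩, by omega⟩

lemma test_sum {z : ℝ} {M : ℕ} (hM : 0 < M) {B : ℝ}
    (hB : ∀ j : ℕ, 1 ≤ j → j ≤ 4 → ‖f z M (ww M j)‖ ≤ B) :
    ((S z M).card : ℝ) ≤ 3.055 * H z M + 2.895 * B := by
  have hM' : (0:ℝ) < M := by exact_mod_cast hM
  set F : ℕ → ℝ := fun i => 1.74 * Real.sin (2 * Real.pi * i / M) +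
      0.71 * Real.cos (2 * (2 * Real.pi * i / M)) + 0.155 * Real.sin (3 * (2 * Real.pi * i / M)) +
      0.29 * Real.cos (4 * (2 * Real.pi * i / M)) with hF
  have hpt : ∀ i ∈ S z M, 1 - 3.055 * (if ¬ 2 * i ≤ M then (1:ℝ) else 0) ≤ F i := by
    intro i hi
    have hiM : (i:ℝ) ≤ M := by exact_mod_cast (mem_S.mp hi).1
    have hi0 : (0:ℝ) ≤ i := Nat.cast_nonneg _
    have hpi := Real.pi_pos
    by_cases h : 2 * i ≤ M
    · rw [if_neg (by simpa using h)]
      have h' : 2 * (i:ℝ) ≤ M := by exact_mod_cast h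
      have hs : 0 ≤ Real.sin (2 * Real.pi * i / M) := by
        apply Real.sin_nonneg_of_nonneg_of_le_pi
        · positivity
        · rw [div_le_iff₀ hM']; nlinarith
      have := test_pos hs
      simp only [hF]; linarith
    · rw [if_pos h]
      have h' : (M:ℝ) ≤ 2 * i := by
        have : M ≤ 2 * i := by omega
        exact_mod_cast this
      have hs : Real.sin (2 * Real.pi * i / M) ≤ 0 := by
        have h1 : Real.sin (2 * Real.pi * i / M) = Real.sin (2 * Real.pi * i / M - 2 * Real.pi) :=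
          (Real.sin_sub_two_pi _).symm
        rw [h1]
        apply Real.sin_nonpos_of_nonpos_of_neg_pi_le
        · have : 2 * Real.pi * i / M ≤ 2 * Real.pi := by
            rw [div_le_iff₀ hM']; nlinarith
          linarith
        · have : Real.pi ≤ 2 * Real.pi * i / M := by
            rw [le_div_iff₀ hM']; nlinarith
          linarith
      have := test_neg hs
      simp only [hF]; linarith
  have hsum := sum_le_sum hpt
  have hleft : ∑ i ∈ S z M, (1 - 3.055 * (if ¬ 2 * i ≤ M then (1:ℝ) else 0)) =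
      (S z M).card - 3.055 * H z M := by
    rw [sum_sub_distrib, ← mul_sum, ← sum_filter, sum_const, sum_const, nsmul_eq_mul, nsmul_eq_mul,
      mul_one, mul_one]
    rfl
  have hright : ∑ i ∈ S z M, F i = 1.74 * (f z M (ww M 1)).im + 0.71 * (f z M (ww M 2)).re +
      0.155 * (f z M (ww M 3)).im + 0.29 * (f z M (ww M 4)).re := by
    rw [f_re, f_re, f_im, f_im, mul_sum, mul_sum, mul_sum, mul_sum, ← sum_add_distrib,
      ← sum_add_distrib, ← sum_add_distrib]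
    apply sum_congr rfl; intro i _
    simp only [hF]
    push_cast
    rw [one_mul]
  have e1 := (Complex.abs_im_le_norm (f z M (ww M 1))).trans (hB 1 (by norm_num) (by norm_num))
  have e2 := (Complex.abs_re_le_norm (f z M (ww M 2))).trans (hB 2 (by norm_num) (by norm_num))
  have e3 := (Complex.abs_im_le_norm (f z M (ww M 3))).trans (hB 3 (by norm_num) (by norm_num))
  have e4 := (Complex.abs_re_le_norm (f z M (ww M 4))).trans (hB 4 (by norm_num) (by norm_num))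
  rw [hleft, hright] at hsum
  have f1 := (le_abs_self _).trans e1
  have f2 := (le_abs_self _).trans e2
  have f3 := (le_abs_self _).trans e3
  have f4 := (le_abs_self _).trans e4
  linarith

theorem ones_lower {z : ℝ} (hz : 0 ≤ z) (hz1 : z < 1) (hirr : Irrational z) {K : ℕ}
    (hK : ∃ m : ℤ, (2:ℝ) ^ K * z ^ 2 = m) :
    ∃ N₀ : ℕ, ∀ M : ℕ, N₀ ≤ M → 1.4345 * Real.sqrt M ≤ (S z M).card := by
  have hC0 : 0 ≤ C0 z K := by
    unfold C0
    have := T_pos hz hz1 hirr K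
    have h2 : 0 ≤ ∑ n ∈ range (K + 1), (r z n : ℝ) := sum_nonneg fun _ _ => Nat.cast_nonneg _
    positivity
  obtain ⟨N1, hN1⟩ := exists_nat_gt ((100000 * (1 + C0 z K)) ^ 2)
  refine ⟨N1 + K + 5, fun M hM => ?_⟩
  by_contra hlt
  push Not at hlt
  set a : ℝ := ((S z M).card : ℝ) with ha
  have ha0 : 0 ≤ a := Nat.cast_nonneg _
  have hMpos : 0 < M := by omega
  have hM5 : (5:ℝ) ≤ M := by
    have : 5 ≤ M := by omega
    exact_mod_cast this
  set q : ℝ := Real.sqrt M with hq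
  have hq0 : 0 ≤ q := Real.sqrt_nonneg _
  have hqq : q ^ 2 = M := Real.sq_sqrt (by linarith)
  have hqbig : 100000 * (1 + C0 z K) ≤ q := by
    rw [hq]
    apply Real.le_sqrt_of_sq_le
    have : (N1:ℝ) ≤ M := by
      have : N1 ≤ M := by omega
      exact_mod_cast this
    linarith
  have ha2 : a ^ 2 ≤ 2.0578 * q ^ 2 := by nlinarith
  have hcard2 : (S z M).card ^ 2 ≤ 4 * M := by
    have : a ^ 2 ≤ 4 * M := by rw [← hqq]; nlinarith
    rw [ha] at this
    exact_mod_cast this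
  have hcard1 : (S z M).card ≤ M := by
    have : a ≤ M := by rw [← hqq]; nlinarith
    rw [ha] at this
    exact_mod_cast this
  set Δ : ℝ := a ^ 2 - 2 * M + 4 * a + C0 z K with hΔ
  have hfb : ∀ j : ℕ, 1 ≤ j → j ≤ 4 → ‖f z M (ww M j)‖ ≤ Real.sqrt Δ := by
    intro j hj1 hj4
    apply Real.le_sqrt_of_sq_le
    exact f_bound hz hz1 hirr hK (by omega) hcard1 hcard2 (ww_norm M j) (ww_pow_M hMpos)
      (ww_ne_one (by omega) (by omega)) (ww_dist hMpos hj4)
  have hY := Y_bound hz hz1 hirr hK (M := M) (by omega)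
  have hH : (H z M : ℝ) ≤ Real.sqrt Δ := by
    apply Real.le_sqrt_of_sq_le
    have : (H z M : ℝ) ^ 2 ≤ Y z M := by exact_mod_cast H_sq_le z M
    linarith
  have hts := test_sum hMpos hfb
  have h1 : a ≤ 5.95 * Real.sqrt Δ := by linarith
  have hΔ0 : 0 ≤ Δ := by
    have : (0:ℝ) ≤ Y z M := Nat.cast_nonneg _
    linarith
  have h2 : a ^ 2 ≤ 35.4025 * Δ := by
    have h3 : a ^ 2 ≤ (5.95 * Real.sqrt Δ) ^ 2 := pow_le_pow_left₀ ha0 h1 2
    rw [mul_pow, Real.sq_sqrt hΔ0] at h3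
    linarith
  rw [hΔ, ← hqq] at h2
  -- 70.805 q^2 <= 34.4025 a^2 + 35.4025 (4 a + C0)
  have h5 : a ^ 2 ≤ 2.05779025 * q ^ 2 := by nlinarith
  have h6 : 70.805 * q ^ 2 ≤ 34.4025 * a ^ 2 + 35.4025 * (4 * a + C0 z K) := by linarith
  have h7 : 34.4025 * a ^ 2 ≤ 70.794 * q ^ 2 := by nlinarith
  have h8 : 0.011 * q ^ 2 ≤ 35.4025 * (4 * 1.4345 * q + C0 z K) := by nlinarith
  nlinarith

end Pool.Agent.Lib.MP_7e9a3a_nt
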