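import Mathlib
import Pool.Agent.Lib.MP_7e9a3a_nt.Main

set_option autoImplicit false

namespace Pool.Agent.Lib.MP_7e9a3a_nt.SqrtBinaryOnes

open Finset Pool.Agent.Lib.MP_7e9a3a_nt

/-- For every positive integer `D` that is not a perfect square (for instance `D = 2`), among the
first `N` binary digits after the point of `√D` at least `1.434 √N` are equal to one, for all
large `N`. -/
theorem result : ∀ D : ℕ, ¬ IsSquare D → ∃ N₀ : ℕ, ∀ N : ℕ, N₀ ≤ N →
    (1.434 : ℝ) * Real.sqrt N ≤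
      (((Finset.Icc 1 N).filter (fun i => ⌊(2 : ℝ) ^ i * Real.sqrt D⌋ % 2 = 1)).card : ℝ) := by
  intro D hD
  obtain ⟨k, hk⟩ : ∃ k : ℕ, D < 2 ^ k := ⟨D, Nat.lt_two_pow_self⟩
  set x : ℝ := Real.sqrt D with hx
  have hxirr : Irrational x := by
    rw [hx, irrational_sqrt_natCast_iff]; exact hD
  have hx0 : 0 ≤ x := Real.sqrt_nonneg _
  have hxx : x ^ 2 = D := Real.sq_sqrt (Nat.cast_nonneg _)
  have hp : (0 : ℝ) < 2 ^ k := by positivity
  have hx1 : x < 2 ^ k := by
    have hDk : (D : ℝ) < 2 ^ k := by exact_mod_cast hk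
    have h1 : (1 : ℝ) ≤ 2 ^ k := one_le_pow₀ (by norm_num)
    by_contra h
    push Not at h
    nlinarith
  set z : ℝ := x / 2 ^ k with hz
  have hz0 : 0 ≤ z := by positivity
  have hz1 : z < 1 := by rw [hz, div_lt_one hp]; exact hx1
  have hzirr : Irrational z := by
    have : z = x / ((2 ^ k : ℕ) : ℝ) := by rw [hz]; push_cast; rfl
    rw [this]
    exact hxirr.div_natCast (by positivity)
  have hK : ∃ m : ℤ, (2 : ℝ) ^ (2 * k) * z ^ 2 = m := by
    refine ⟨D, ?_⟩
    rw [hz, div_pow, hxx, ← pow_mul, mul_comm k 2]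
    push_cast
    field_simp
  obtain ⟨N₀, hN₀⟩ := ones_lower hz0 hz1 hzirr hK
  refine ⟨N₀ + (2000 * k) ^ 2, fun N hN => ?_⟩
  have h1 := hN₀ (N + k) (by omega)
  have hcard : (S z (N + k)).card ≤
      k + ((Finset.Icc 1 N).filter (fun i => ⌊(2 : ℝ) ^ i * x⌋ % 2 = 1)).card := by
    have hsub : S z (N + k) ⊆ Finset.Icc 1 k ∪
        ((Finset.Icc 1 N).filter (fun i => ⌊(2 : ℝ) ^ i * x⌋ % 2 = 1)).image (fun i => i + k) := by
      intro i hi
      rw [mem_S] at hi
      obtain ⟨hi1, hi2, hi3⟩ := hi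
      rw [mem_union]
      by_cases hik : i ≤ k
      · left; exact Finset.mem_Icc.mpr ⟨hi2, hik⟩
      · right
        rw [mem_image]
        refine ⟨i - k, ?_, by omega⟩
        rw [mem_filter, Finset.mem_Icc]
        refine ⟨⟨by omega, by omega⟩, ?_⟩
        have he : (2 : ℝ) ^ i * z = 2 ^ (i - k) * x := by
          have : (2 : ℝ) ^ i = 2 ^ (i - k) * 2 ^ k := by
            rw [← pow_add]; congr 1; omega
          rw [this, hz]; field_simp
        rw [← he]; exact hi3
    calc (S z (N + k)).card ≤ _ := card_le_card hsub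
      _ ≤ _ := card_union_le _ _
      _ ≤ k + _ := by
        rw [Nat.card_Icc]
        exact Nat.add_le_add (by omega) card_image_le
  have hcard' : ((S z (N + k)).card : ℝ) ≤
      k + (((Finset.Icc 1 N).filter (fun i => ⌊(2 : ℝ) ^ i * x⌋ % 2 = 1)).card : ℝ) := by
    exact_mod_cast hcard
  have h2 : Real.sqrt N ≤ Real.sqrt ((N + k : ℕ) : ℝ) := by
    apply Real.sqrt_le_sqrt
    push_cast
    linarith [(Nat.cast_nonneg k : (0:ℝ) ≤ k)]
  have h3 : (2000 * k : ℝ) ≤ Real.sqrt N := by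
    apply Real.le_sqrt_of_sq_le
    have : (2000 * k) ^ 2 ≤ N := by omega
    exact_mod_cast this
  linarith

end Pool.Agent.Lib.MP_7e9a3a_nt.SqrtBinaryOnes
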